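import Mathlib
import Pool.Agent.U593.SV.Upper

set_option autoImplicit false

/-!
# Self-verifying 1-limited automata and the complement

Every 1-limited automaton of size `n` has an equivalent self-verifying 1-limited automaton of size at
most `2 ^ (16 n ^ 2)`, hence also a 1-limited automaton of this size for the complement of its
language; and `2 ^ (c n ^ 2)` is necessary for both. The self-verifying automaton guesses one bit in
each cell during the first visit and then makes one nondeterministic walk on the frozen tape which
counts, after each letter, the reachable states of the table automaton of the given machine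
(the method of Immerman and Szelepcsényi); the bits of a block of cells encode the set of the states
reachable at its end, and they are verified by the walk.
-/

namespace Pool.Agent.Results.MP_0036f5_lc.SelfVerifying

open Pool.Agent.H630R2.LA Pool.Agent.U593.SV Relation

/-- `M` with the set `R` of rejecting states is self-verifying: no state is both final and rejecting,
every input has a computation path that moves past the right end-marker in a final or in a rejecting
state, and no input has paths of both kinds. -/
def SelfVer (strict : Prop) {A : Type} (M : LimAut A) (R : Set M.Q) : Prop :=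
  Disjoint M.F R ∧ M.language strict ∪ ends strict M R = Set.univ ∧
    Disjoint (M.language strict) (ends strict M R)

/-- The least size of a self-verifying 1-limited automaton with language `L`; the rejecting states
count for the size as the final states do. -/
noncomputable def svSize (strict : Prop) {A : Type} (L : Set (List A)) : ℕ :=
  sInf {s | ∃ (M : LimAut A) (R : Set M.Q), SelfVer strict M R ∧ M.language strict = L ∧
    M.size + R.ncard = s}

/-- The least size of a 1-limited automaton for the complement of `L`. -/
noncomputable def coSize (strict : Prop) {A : Type} (L : Set (List A)) : ℕ :=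
  sInf {s | ∃ M : LimAut A, M.language strict = Lᶜ ∧ M.size = s}

/-- The values `svSize L(M)`, for `M` of size at most `n`. -/
def svCosts (strict : Prop) (n : ℕ) : Set ℕ :=
  {s | ∃ (A : Type) (_ : Finite A) (M : LimAut A), M.size ≤ n ∧
    s = svSize strict (M.language strict)}

/-- The values `coSize L(M)`, for `M` of size at most `n`. -/
def coCosts (strict : Prop) (n : ℕ) : Set ℕ :=
  {s | ∃ (A : Type) (_ : Finite A) (M : LimAut A), M.size ≤ n ∧
    s = coSize strict (M.language strict)}

/-- The cost of making 1-limited automata self-verifying. -/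
noncomputable def SV (strict : Prop) (n : ℕ) : ℕ := sSup (svCosts strict n)

/-- The cost of complementing 1-limited automata. -/
noncomputable def CC (strict : Prop) (n : ℕ) : ℕ := sSup (coCosts strict n)

section compl

variable {A : Type} {strict : Prop}

theorem SelfVer.compl {M : LimAut A} {R : Set M.Q} (h : SelfVer strict M R) :
    ends strict M R = (M.language strict)ᶜ := by
  obtain ⟨_, h1, h2⟩ := h
  ext w
  constructor
  · intro hw hw'
    exact Set.disjoint_left.1 h2 hw' hw
  · intro hw
    rcases (Set.eq_univ_iff_forall.1 h1 w) with h3 | h3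
    · exact absurd h3 hw
    · exact h3

theorem selfVer_of {M : LimAut A} {R : Set M.Q} (h : Disjoint M.F R)
    (h' : ends strict M R = (M.language strict)ᶜ) : SelfVer strict M R := by
  refine ⟨h, ?_, ?_⟩
  · rw [h', Set.union_compl_self]
  · rw [h']
    exact disjoint_compl_right

/-- The machine with other final states. -/
def withF (M : LimAut A) (R : Set M.Q) : LimAut A where
  Q := M.Q
  W := M.W
  finQ := M.finQ
  finW := M.finW
  inp := M.inp
  inp_inj := M.inp_inj
  δ := M.δ
  q0 := M.q0
  F := R

/-- The same configuration. -/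
def toC {M : LimAut A} (R : Set M.Q) (c : Cfg M) : Cfg (withF M R) :=
  ⟨c.state, c.pos, c.tape, c.seen⟩

def ofC {M : LimAut A} (R : Set M.Q) (c : Cfg (withF M R)) : Cfg M :=
  ⟨c.state, c.pos, c.tape, c.seen⟩

theorem initTape_withF {M : LimAut A} (R : Set M.Q) (w : List A) :
    initTape (withF M R) w = initTape M w := by
  funext i
  cases i <;> rfl

theorem language_withF (M : LimAut A) (R : Set M.Q) :
    (withF M R).language strict = ends strict M R := by
  ext w
  have h0 : init (withF M R) w = toC R (init M w) := by
    unfold init toC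
    rw [initTape_withF]
    rfl
  constructor
  · rintro ⟨c, hc, hp, hs⟩
    refine ⟨ofC R c, ?_, hp, hs⟩
    have h1 := ReflTransGen.lift (p := Step (M := M) strict w.length) (ofC R)
      (fun _ _ h => h) _ _ hc
    rw [h0] at h1
    exact h1
  · rintro ⟨c, hc, hp, hs⟩
    refine ⟨toC R c, ?_, hp, hs⟩
    rw [h0]
    exact ReflTransGen.lift (p := Step (M := withF M R) strict w.length) (toC R)
      (fun _ _ h => h) _ _ hc

theorem size_withF (M : LimAut A) (R : Set M.Q) : (withF M R).size ≤ M.size + R.ncard := by
  unfold LimAut.size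
  have h1 : (withF M R).numTrans = M.numTrans := rfl
  have h2 : (withF M R).F.ncard = R.ncard := rfl
  have h3 : Nat.card (withF M R).Q = Nat.card M.Q := rfl
  have h4 : Nat.card (withF M R).W = Nat.card M.W := rfl
  rw [h1, h2, h3, h4]
  omega

end compl

section costs

variable {strict : Prop}

theorem svSize_mem {A : Type} [Finite A] (M : LimAut A) :
    ∃ (M' : LimAut A) (R : Set M'.Q), SelfVer strict M' R ∧
      M'.language strict = M.language strict ∧
      M'.size + R.ncard = svSize strict (M.language strict) := by
  obtain ⟨M', R, h1, h2, h3⟩ := upper_sv M strict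
  have hne : {s | ∃ (M' : LimAut A) (R : Set M'.Q), SelfVer strict M' R ∧
      M'.language strict = M.language strict ∧ M'.size + R.ncard = s}.Nonempty :=
    ⟨_, M', R, selfVer_of h2 (by rw [(h1 strict).1]; exact (h1 strict).2), (h1 strict).1, rfl⟩
  exact Nat.sInf_mem hne

theorem svSize_le {A : Type} [Finite A] (M : LimAut A) :
    svSize strict (M.language strict) ≤ 2 ^ (16 * M.size ^ 2) := by
  obtain ⟨M', R, h1, h2, h3⟩ := upper_sv M strict
  refine le_trans (Nat.sInf_le ?_) h3
  exact ⟨M', R, selfVer_of h2 (by rw [(h1 strict).1]; exact (h1 strict).2), (h1 strict).1, rfl⟩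

theorem coSize_le {A : Type} [Finite A] (M : LimAut A) :
    coSize strict (M.language strict) ≤ svSize strict (M.language strict) := by
  obtain ⟨M', R, h1, h2, h3⟩ := svSize_mem (strict := strict) M
  rw [← h3]
  refine le_trans (Nat.sInf_le ?_) (size_withF M' R)
  refine ⟨withF M' R, ?_, rfl⟩
  rw [language_withF, h1.compl, h2]

theorem coSize_mem {A : Type} [Finite A] (M : LimAut A) :
    ∃ N : LimAut A, N.language strict = (M.language strict)ᶜ ∧
      N.size = coSize strict (M.language strict) := by
  obtain ⟨M', R, h1, h2, h3⟩ := svSize_mem (strict := strict) M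
  have hne : {s | ∃ N : LimAut A, N.language strict = (M.language strict)ᶜ ∧
      N.size = s}.Nonempty :=
    ⟨_, withF M' R, by rw [language_withF, h1.compl, h2], rfl⟩
  exact Nat.sInf_mem hne

theorem svCosts_le (n : ℕ) : ∀ s ∈ svCosts strict n, s ≤ 2 ^ (16 * n ^ 2) := by
  rintro s ⟨A, _, M, hM, rfl⟩
  refine (svSize_le M).trans (Nat.pow_le_pow_right (by omega) ?_)
  exact Nat.mul_le_mul_left _ (Nat.pow_le_pow_left hM 2)

theorem coCosts_le (n : ℕ) : ∀ s ∈ coCosts strict n, s ≤ SV strict n := by
  rintro s ⟨A, _, M, hM, rfl⟩
  refine (coSize_le M).trans ?_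
  exact le_csSup ⟨_, svCosts_le n⟩ ⟨A, inferInstance, M, hM, rfl⟩

/-- A machine of size `4`. -/
def tinyM : LimAut Empty := ⟨Unit, Empty, inferInstance, inferInstance, id,
    fun _ _ h => h, fun _ _ => ∅, (), ∅⟩

theorem size_tinyM : tinyM.size = 4 := by
  unfold LimAut.size LimAut.numTrans tinyM
  simp

theorem svCosts_nonempty (n : ℕ) (hn : 4 ≤ n) : (svCosts strict n).Nonempty :=
  ⟨_, Empty, inferInstance, tinyM, by rw [size_tinyM]; exact hn, rfl⟩

theorem coCosts_nonempty (n : ℕ) (hn : 4 ≤ n) : (coCosts strict n).Nonempty :=
  ⟨_, Empty, inferInstance, tinyM, by rw [size_tinyM]; exact hn, rfl⟩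

theorem size_pos {A : Type} (M : LimAut A) : Nat.card M.Q + 3 ≤ M.size := by
  unfold LimAut.size
  omega

/-- The lower bound. -/
theorem CC_lower (n : ℕ) (hn : 4 ≤ n) : 2 ^ ((n / 1000000) ^ 2) ≤ CC strict n := by
  have hbdd : BddAbove (coCosts strict n) := ⟨_, coCosts_le n⟩
  rcases Nat.eq_zero_or_pos (n / 1000000) with h0 | h0
  · rw [h0]
    obtain ⟨s, hs⟩ := coCosts_nonempty (strict := strict) n hn
    refine le_trans ?_ (le_csSup hbdd hs)
    obtain ⟨A, _, M, _, rfl⟩ := hs
    obtain ⟨N, _, h2⟩ := coSize_mem (strict := strict) M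
    rw [← h2]
    have := size_pos N
    norm_num
    omega
  · set k := n / 1000000 with hk
    have hkn : 1000000 * k ≤ n := Nat.mul_div_le n 1000000
    set m := 5 * k - 1 with hm
    have h1 : (Pool.Agent.N602.FT.bwit m).size ≤ n := by
      refine (Pool.Agent.N602.FT.size_bwit m).trans ?_
      omega
    have hmem : coSize strict ((Pool.Agent.N602.FT.bwit m).language strict) ∈
        coCosts strict n := ⟨_, inferInstance, _, h1, rfl⟩
    refine le_trans ?_ (le_csSup hbdd hmem)
    obtain ⟨N, h2, h3⟩ := coSize_mem (strict := strict) (Pool.Agent.N602.FT.bwit m)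
    rw [← h3]
    have h4 := lower_compl m strict N h2
    have h5 := size_pos N
    generalize Nat.card N.Q = q at *
    generalize N.size = s at *
    have h6 : 2 ^ (m ^ 2) ≤ s ^ 3 := by
      refine h4.trans ?_
      have h7 : q + 3 ≤ s := h5
      nlinarith [Nat.zero_le q, Nat.mul_le_mul h7 h7, Nat.mul_le_mul (Nat.mul_le_mul h7 h7) h7]
    have h7 : 3 * k ^ 2 ≤ m ^ 2 := by
      have h8 : m + 1 = 5 * k := by omega
      have h9 : 4 * k ≤ m := by omega
      nlinarith
    have h8 : (2 ^ (k ^ 2)) ^ 3 ≤ s ^ 3 := by
      refine le_trans ?_ h6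
      rw [← pow_mul]
      exact Nat.pow_le_pow_right (by omega) (by omega)
    exact (Nat.pow_le_pow_iff_left (by norm_num)).1 h8

end costs

/-- **Self-verification and complementation of 1-limited automata cost `2 ^ Θ(n ^ 2)`.** -/
theorem result (strict : Prop) :
    (∀ (A : Type) [Finite A] (M : LimAut A), ∃ (M' : LimAut A) (R : Set M'.Q),
      (∀ strict' : Prop, SelfVer strict' M' R ∧ M'.language strict' = M.language strict) ∧
      M'.size + R.ncard ≤ 2 ^ (16 * M.size ^ 2)) ∧
    (∀ n : ℕ, 4 ≤ n → IsGreatest (svCosts strict n) (SV strict n) ∧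
      IsGreatest (coCosts strict n) (CC strict n) ∧
      2 ^ ((n / 1000000) ^ 2) ≤ CC strict n ∧ CC strict n ≤ SV strict n ∧
      SV strict n ≤ 2 ^ (16 * n ^ 2)) := by
  refine ⟨?_, ?_⟩
  · intro A _ M
    obtain ⟨M', R, h1, h2, h3⟩ := upper_sv M strict
    refine ⟨M', R, fun strict' => ⟨selfVer_of h2 ?_, (h1 strict').1⟩, h3⟩
    rw [(h1 strict').1]
    exact (h1 strict').2
  · intro n hn
    have h1 := svCosts_nonempty (strict := strict) n hn
    have h2 := coCosts_nonempty (strict := strict) n hn
    have h3 : BddAbove (svCosts strict n) := ⟨_, svCosts_le n⟩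
    have h4 : BddAbove (coCosts strict n) := ⟨_, coCosts_le n⟩
    exact ⟨⟨Nat.sSup_mem h1 h3, fun s hs => le_csSup h3 hs⟩,
      ⟨Nat.sSup_mem h2 h4, fun s hs => le_csSup h4 hs⟩, CC_lower n hn,
      csSup_le h2 (coCosts_le n), csSup_le h1 (svCosts_le n)⟩

end Pool.Agent.Results.MP_0036f5_lc.SelfVerifying
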