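import Mathlib
import Pool.Agent.U593.TW.Upper

set_option autoImplicit false

/-!
# Two-way automata: self-verification and complementation cost a polynomial

Every 1-limited automaton that never rewrites (that is, every two-way nondeterministic finite
automaton) of size `n` has an equivalent self-verifying 1-limited automaton of size at most
`2 ^ 66 * n ^ 74`, hence also a 1-limited automaton of this size for the complement of its language.
For all 1-limited automata the cost is `2 ^ Θ(n ^ 2)` (`SelfVerifying`).

The self-verifying automaton divides the tape in blocks of `S ^ 2` cells, where `S - 1` is the number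
of states of the given automaton, and guesses one bit in each cell during the first visit, so that
the bits of a block encode the table of the part of the tape that ends there (for which `p, q` is
there a computation which enters this part from the right in the state `p` and leaves it in the state
`q`). Then it makes one nondeterministic walk on the frozen tape which verifies the tables one after
another: the entries are decided by counting the vertices of the configuration graph of the block that
are reachable by at most `d` edges, for `d = 0, 1, 2, ...` (the method of Immerman and Szelepcsényi);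
the part of the tape on the left of the block is replaced by the preceding table.
-/

namespace Pool.Agent.Results.MP_0036f5_lc.TwoWaySelfVerifying

open Pool.Agent.H630R2.LA Pool.Agent.U593.SV Pool.Agent.U593.TW Pool.Agent.TH588.LQ
open Pool.Agent.Results.MP_0036f5_lc.SelfVerifying Relation Filter

/-- The values `svSize L(M)`, for `M` of size at most `n` that never rewrites. -/
def svCostsN (strict : Prop) (n : ℕ) : Set ℕ :=
  {s | ∃ (A : Type) (_ : Finite A) (M : LimAut A), NeverRewrites M ∧ M.size ≤ n ∧
    s = svSize strict (M.language strict)}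

/-- The values `coSize L(M)`, for `M` of size at most `n` that never rewrites. -/
def coCostsN (strict : Prop) (n : ℕ) : Set ℕ :=
  {s | ∃ (A : Type) (_ : Finite A) (M : LimAut A), NeverRewrites M ∧ M.size ≤ n ∧
    s = coSize strict (M.language strict)}

/-- The cost of simulating two-way automata by self-verifying 1-limited automata. -/
noncomputable def SVN (strict : Prop) (n : ℕ) : ℕ := sSup (svCostsN strict n)

/-- The cost of complementing two-way automata by 1-limited automata. -/
noncomputable def CCN (strict : Prop) (n : ℕ) : ℕ := sSup (coCostsN strict n)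

variable {strict : Prop}

theorem svSizeN_le {A : Type} [Finite A] (M : LimAut A) (hM : NeverRewrites M) :
    svSize strict (M.language strict) ≤ 2 ^ 66 * M.size ^ 74 := by
  obtain ⟨M', R, h1, h2, _, _, h3⟩ := upper_tw M strict hM
  refine le_trans (Nat.sInf_le ?_) h3
  exact ⟨M', R, selfVer_of h2 (by rw [(h1 strict).1]; exact (h1 strict).2), (h1 strict).1, rfl⟩

theorem svCostsN_le (n : ℕ) : ∀ s ∈ svCostsN strict n, s ≤ 2 ^ 66 * n ^ 74 := by
  rintro s ⟨A, _, M, hM, hn, rfl⟩
  refine (svSizeN_le M hM).trans ?_
  exact Nat.mul_le_mul_left _ (Nat.pow_le_pow_left hn _)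

theorem coCostsN_le (n : ℕ) : ∀ s ∈ coCostsN strict n, s ≤ SVN strict n := by
  rintro s ⟨A, _, M, hM, hn, rfl⟩
  refine (coSize_le M).trans ?_
  exact le_csSup ⟨_, svCostsN_le n⟩ ⟨A, inferInstance, M, hM, hn, rfl⟩

theorem never_tiny : NeverRewrites tinyM := fun _ _ _ h => absurd h (Set.notMem_empty _)

theorem svCostsN_nonempty (n : ℕ) (hn : 4 ≤ n) : (svCostsN strict n).Nonempty :=
  ⟨_, Empty, inferInstance, tinyM, never_tiny, by rw [size_tinyM]; exact hn, rfl⟩

theorem coCostsN_nonempty (n : ℕ) (hn : 4 ≤ n) : (coCostsN strict n).Nonempty :=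
  ⟨_, Empty, inferInstance, tinyM, never_tiny, by rw [size_tinyM]; exact hn, rfl⟩

theorem SVN_le (n : ℕ) : SVN strict n ≤ 2 ^ 66 * n ^ 74 := by
  unfold SVN
  rcases Set.eq_empty_or_nonempty (svCostsN strict n) with h | h
  · rw [h]
    simp
  · exact csSup_le h (svCostsN_le n)

theorem CCN_le (n : ℕ) : CCN strict n ≤ SVN strict n := by
  unfold CCN
  rcases Set.eq_empty_or_nonempty (coCostsN strict n) with h | h
  · rw [h]
    simp
  · exact csSup_le h (coCostsN_le n)

/-- The cost for all 1-limited automata is greater than each power of the cost for two-way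
automata. -/
theorem gap (k : ℕ) : ∀ᶠ n : ℕ in atTop, SVN strict n ^ k < CC strict n := by
  refine eventually_atTop.2 ⟨1000000 * (1620 * k + 1), fun n hn => ?_⟩
  refine lt_of_lt_of_le ?_ (CC_lower (strict := strict) n (by omega))
  set m := n / 1000000 with hm
  have h1 : 1620 * k + 1 ≤ m := by
    rw [hm, Nat.le_div_iff_mul_le (by norm_num)]
    omega
  have h2 : n ≤ 1000000 * (m + 1) := by omega
  have h3 : m + 1 ≤ 2 ^ m := Nat.lt_two_pow_self
  have h4 : n ≤ 2 ^ (20 + m) := by
    rw [pow_add]
    calc n ≤ 1000000 * (m + 1) := h2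
      _ ≤ 2 ^ 20 * 2 ^ m := Nat.mul_le_mul (by norm_num) h3
  calc SVN strict n ^ k ≤ (2 ^ 66 * n ^ 74) ^ k := Nat.pow_le_pow_left (SVN_le n) k
    _ ≤ (2 ^ 66 * (2 ^ (20 + m)) ^ 74) ^ k := by gcongr
    _ = 2 ^ ((66 + (20 + m) * 74) * k) := by
      rw [← pow_mul, ← pow_add, ← pow_mul]
    _ < 2 ^ (m ^ 2) := by
      apply Nat.pow_lt_pow_right (by norm_num)
      nlinarith

/-- **Two-way automata can be made self-verifying, and complemented, at a polynomial cost.** -/
theorem result (strict : Prop) :
    (∀ (A : Type) [Finite A] (M : LimAut A), NeverRewrites M →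
      ∃ (M' : LimAut A) (R : Set M'.Q),
        (∀ strict' : Prop, SelfVer strict' M' R ∧ M'.language strict' = M.language strict) ∧
        Nat.card M'.Q ≤ 2 ^ 66 * Nat.card M.Q ^ 36 ∧ Nat.card M'.W = 3 * Nat.card A + 1 ∧
        M'.size + R.ncard ≤ 2 ^ 66 * M.size ^ 74) ∧
    (∀ n : ℕ, 4 ≤ n → IsGreatest (svCostsN strict n) (SVN strict n) ∧
      IsGreatest (coCostsN strict n) (CCN strict n) ∧ CCN strict n ≤ SVN strict n ∧
      SVN strict n ≤ 2 ^ 66 * n ^ 74) ∧
    (∀ k : ℕ, ∀ᶠ n : ℕ in atTop, SVN strict n ^ k < CC strict n) := by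
  refine ⟨?_, ?_, gap⟩
  · intro A _ M hM
    obtain ⟨M', R, h1, h2, h3, h4, h5⟩ := upper_tw M strict hM
    refine ⟨M', R, fun strict' => ⟨selfVer_of h2 ?_, (h1 strict').1⟩, h3, h4, h5⟩
    rw [(h1 strict').1]
    exact (h1 strict').2
  · intro n hn
    have h3 : BddAbove (svCostsN strict n) := ⟨_, svCostsN_le n⟩
    have h4 : BddAbove (coCostsN strict n) := ⟨_, coCostsN_le n⟩
    exact ⟨⟨Nat.sSup_mem (svCostsN_nonempty n hn) h3, fun s hs => le_csSup h3 hs⟩,
      ⟨Nat.sSup_mem (coCostsN_nonempty n hn) h4, fun s hs => le_csSup h4 hs⟩, CCN_le n,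
      SVN_le n⟩

end Pool.Agent.Results.MP_0036f5_lc.TwoWaySelfVerifying
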