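import Mathlib
import Pool.Agent.U593.UA.Upper
import Pool.Agent.U593.UA.Lower
import Pool.Agent.Results.MP_0036f5_lc.SelfVerifying

set_option autoImplicit false

/-!
# Unambiguous 1-limited automata

Every 1-limited automaton of size `n` has an equivalent 1-limited automaton of size at most
`2 ^ (180 n ^ 2)` which is self-verifying and unambiguous: for every input exactly one computation
ends by moving past the right end-marker in a final or in a rejecting state. And `2 ^ (c n ^ 2)` is
necessary already for unambiguity, that is if only the accepting computation has to be unique.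

The simulating machine guesses one bit in each cell during the first visit and then makes one walk on
the frozen tape which counts, after each letter, the states of the table automaton that are reachable
and adds up the least weights of paths to them, for the first weight function (of a fixed list) that
has no ties (the double counting of Reinhardt and Allender). The lower bound is a rank argument.
-/

namespace Pool.Agent.Results.MP_0036f5_lc.Unambiguous

open Pool.Agent.H630R2.LA Pool.Agent.U593.SV Pool.Agent.U593.UA
  Pool.Agent.Results.MP_0036f5_lc.SelfVerifying Relation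

/-- The least size of an unambiguous 1-limited automaton with language `L`. -/
noncomputable def uaSize (strict : Prop) {A : Type} (L : Set (List A)) : ℕ :=
  sInf {s | ∃ M : LimAut A, Unamb strict M M.F ∧ M.language strict = L ∧ M.size = s}

/-- The least size of a self-verifying 1-limited automaton with language `L` in which for every input
at most one computation ends by moving past the right end-marker in a final or in a rejecting state;
the rejecting states count for the size as the final states do. -/
noncomputable def usSize (strict : Prop) {A : Type} (L : Set (List A)) : ℕ :=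
  sInf {s | ∃ (M : LimAut A) (R : Set M.Q), SelfVer strict M R ∧ Unamb strict M (M.F ∪ R) ∧
    M.language strict = L ∧ M.size + R.ncard = s}

/-- The values `uaSize L(M)`, for `M` of size at most `n`. -/
def uaCosts (strict : Prop) (n : ℕ) : Set ℕ :=
  {s | ∃ (A : Type) (_ : Finite A) (M : LimAut A), M.size ≤ n ∧
    s = uaSize strict (M.language strict)}

/-- The values `usSize L(M)`, for `M` of size at most `n`. -/
def usCosts (strict : Prop) (n : ℕ) : Set ℕ :=
  {s | ∃ (A : Type) (_ : Finite A) (M : LimAut A), M.size ≤ n ∧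
    s = usSize strict (M.language strict)}

/-- The cost of making 1-limited automata unambiguous. -/
noncomputable def UA (strict : Prop) (n : ℕ) : ℕ := sSup (uaCosts strict n)

/-- The cost of making 1-limited automata self-verifying and unambiguous. -/
noncomputable def US (strict : Prop) (n : ℕ) : ℕ := sSup (usCosts strict n)

section costs

variable {strict : Prop}

theorem Unamb.mono {A : Type} {M : LimAut A} {S S' : Set M.Q} (h : Unamb strict M S)
    (hS : S' ⊆ S) : Unamb strict M S' := by
  have key : ∀ w l, Comput strict M S' w l → Comput strict M S w l := by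
    rintro w l ⟨h1, h2, c, h3, h4, h5⟩
    exact ⟨h1, h2, c, h3, h4, hS h5⟩
  intro w l l' h1 h2
  exact h w l l' (key w l h1) (key w l' h2)

theorem upper {A : Type} [Finite A] (M : LimAut A) :
    ∃ (M' : LimAut A) (R : Set M'.Q), (∀ strict' : Prop, SelfVer strict' M' R ∧
      Unamb strict' M' (M'.F ∪ R) ∧ M'.language strict' = M.language strict) ∧
      M'.size + R.ncard ≤ 2 ^ (180 * M.size ^ 2) := by
  obtain ⟨M', R, h1, h2, h3⟩ := upper_usv M strict
  refine ⟨M', R, fun strict' => ⟨selfVer_of h2 ?_, (h1 strict').2.2, (h1 strict').1⟩, h3⟩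
  rw [(h1 strict').1]
  exact (h1 strict').2.1

theorem usSize_mem {A : Type} [Finite A] (M : LimAut A) :
    ∃ (M' : LimAut A) (R : Set M'.Q), SelfVer strict M' R ∧ Unamb strict M' (M'.F ∪ R) ∧
      M'.language strict = M.language strict ∧
      M'.size + R.ncard = usSize strict (M.language strict) := by
  obtain ⟨M', R, h1, h3⟩ := upper (strict := strict) M
  have hne : {s | ∃ (M' : LimAut A) (R : Set M'.Q), SelfVer strict M' R ∧
      Unamb strict M' (M'.F ∪ R) ∧ M'.language strict = M.language strict ∧
      M'.size + R.ncard = s}.Nonempty :=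
    ⟨_, M', R, (h1 strict).1, (h1 strict).2.1, (h1 strict).2.2, rfl⟩
  exact Nat.sInf_mem hne

theorem usSize_le {A : Type} [Finite A] (M : LimAut A) :
    usSize strict (M.language strict) ≤ 2 ^ (180 * M.size ^ 2) := by
  obtain ⟨M', R, h1, h3⟩ := upper (strict := strict) M
  refine le_trans (Nat.sInf_le ?_) h3
  exact ⟨M', R, (h1 strict).1, (h1 strict).2.1, (h1 strict).2.2, rfl⟩

theorem uaSize_le {A : Type} [Finite A] (M : LimAut A) :
    uaSize strict (M.language strict) ≤ usSize strict (M.language strict) := by
  obtain ⟨M', R, _, h2, h3, h4⟩ := usSize_mem (strict := strict) M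
  rw [← h4]
  refine le_trans (Nat.sInf_le ?_) (Nat.le_add_right _ _)
  exact ⟨M', Unamb.mono h2 Set.subset_union_left, h3, rfl⟩

theorem uaSize_mem {A : Type} [Finite A] (M : LimAut A) :
    ∃ N : LimAut A, Unamb strict N N.F ∧ N.language strict = M.language strict ∧
      N.size = uaSize strict (M.language strict) := by
  obtain ⟨M', R, _, h2, h3, h4⟩ := usSize_mem (strict := strict) M
  have hne : {s | ∃ N : LimAut A, Unamb strict N N.F ∧
      N.language strict = M.language strict ∧ N.size = s}.Nonempty :=
    ⟨_, M', Unamb.mono h2 Set.subset_union_left, h3, rfl⟩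
  exact Nat.sInf_mem hne

theorem usCosts_le (n : ℕ) : ∀ s ∈ usCosts strict n, s ≤ 2 ^ (180 * n ^ 2) := by
  rintro s ⟨A, _, M, hM, rfl⟩
  refine (usSize_le M).trans (Nat.pow_le_pow_right (by omega) ?_)
  exact Nat.mul_le_mul_left _ (Nat.pow_le_pow_left hM 2)

theorem uaCosts_le (n : ℕ) : ∀ s ∈ uaCosts strict n, s ≤ US strict n := by
  rintro s ⟨A, _, M, hM, rfl⟩
  refine (uaSize_le M).trans ?_
  exact le_csSup ⟨_, usCosts_le n⟩ ⟨A, inferInstance, M, hM, rfl⟩

theorem usCosts_nonempty (n : ℕ) (hn : 4 ≤ n) : (usCosts strict n).Nonempty :=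
  ⟨_, Empty, inferInstance, tinyM, by rw [size_tinyM]; exact hn, rfl⟩

theorem uaCosts_nonempty (n : ℕ) (hn : 4 ≤ n) : (uaCosts strict n).Nonempty :=
  ⟨_, Empty, inferInstance, tinyM, by rw [size_tinyM]; exact hn, rfl⟩

/-- The lower bound. -/
theorem UA_lower (n : ℕ) (hn : 4 ≤ n) : 2 ^ ((n / 1000000) ^ 2) ≤ UA strict n := by
  have hbdd : BddAbove (uaCosts strict n) := ⟨_, uaCosts_le n⟩
  rcases Nat.eq_zero_or_pos (n / 1000000) with h0 | h0
  · rw [h0]
    obtain ⟨s, hs⟩ := uaCosts_nonempty (strict := strict) n hn
    refine le_trans ?_ (le_csSup hbdd hs)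
    obtain ⟨A, _, M, _, rfl⟩ := hs
    obtain ⟨N, _, _, h2⟩ := uaSize_mem (strict := strict) M
    rw [← h2]
    have := size_pos N
    norm_num
    omega
  · set k := n / 1000000 with hk
    have hkn : 1000000 * k ≤ n := Nat.mul_div_le n 1000000
    set m := 5 * k - 1 with hm
    have h1 : (Pool.Agent.N602.FT.bwit m).size ≤ n := by
      refine (Pool.Agent.N602.FT.size_bwit m).trans ?_
      omega
    have hmem : uaSize strict ((Pool.Agent.N602.FT.bwit m).language strict) ∈
        uaCosts strict n := ⟨_, inferInstance, _, h1, rfl⟩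
    refine le_trans ?_ (le_csSup hbdd hmem)
    obtain ⟨N, h2, h2', h3⟩ := uaSize_mem (strict := strict) (Pool.Agent.N602.FT.bwit m)
    rw [← h3]
    have h4 := lower_unamb m strict N h2 h2'
    have h5 := size_pos N
    generalize Nat.card N.Q = q at *
    generalize N.size = s at *
    have h6 : 2 ^ (m ^ 2) ≤ s ^ 3 := by
      refine h4.trans ?_
      have h7 : q + 3 ≤ s := h5
      nlinarith [Nat.zero_le q, Nat.mul_le_mul h7 h7, Nat.mul_le_mul (Nat.mul_le_mul h7 h7) h7]
    have h7 : 3 * k ^ 2 ≤ m ^ 2 := by
      have h8 : m + 1 = 5 * k := by omega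
      have h9 : 4 * k ≤ m := by omega
      nlinarith
    have h8 : (2 ^ (k ^ 2)) ^ 3 ≤ s ^ 3 := by
      refine le_trans ?_ h6
      rw [← pow_mul]
      exact Nat.pow_le_pow_right (by omega) (by omega)
    exact (Nat.pow_le_pow_iff_left (by norm_num)).1 h8

end costs

/-- **Making 1-limited automata unambiguous costs `2 ^ Θ(n ^ 2)`.** -/
theorem result (strict : Prop) :
    (∀ (A : Type) [Finite A] (M : LimAut A), ∃ (M' : LimAut A) (R : Set M'.Q),
      (∀ strict' : Prop, SelfVer strict' M' R ∧ Unamb strict' M' (M'.F ∪ R) ∧
        M'.language strict' = M.language strict) ∧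
      M'.size + R.ncard ≤ 2 ^ (180 * M.size ^ 2)) ∧
    (∀ n : ℕ, 4 ≤ n → IsGreatest (uaCosts strict n) (UA strict n) ∧
      IsGreatest (usCosts strict n) (US strict n) ∧
      2 ^ ((n / 1000000) ^ 2) ≤ UA strict n ∧ UA strict n ≤ US strict n ∧
      US strict n ≤ 2 ^ (180 * n ^ 2)) := by
  refine ⟨fun A _ M => upper M, ?_⟩
  intro n hn
  have h1 := usCosts_nonempty (strict := strict) n hn
  have h2 := uaCosts_nonempty (strict := strict) n hn
  have h3 : BddAbove (usCosts strict n) := ⟨_, usCosts_le n⟩
  have h4 : BddAbove (uaCosts strict n) := ⟨_, uaCosts_le n⟩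
  exact ⟨⟨Nat.sSup_mem h2 h4, fun s hs => le_csSup h4 hs⟩,
    ⟨Nat.sSup_mem h1 h3, fun s hs => le_csSup h3 hs⟩, UA_lower n hn,
    csSup_le h2 (uaCosts_le n), csSup_le h1 (usCosts_le n)⟩

end Pool.Agent.Results.MP_0036f5_lc.Unambiguous
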