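import Mathlib
import Pool.Agent.TH705.LB.Lower
import Pool.Agent.U593.UL.Low
import Pool.Agent.Results.MP_0036f5_lc.SelfVerifying

set_option autoImplicit false

/-!
# Determinizing unambiguous and self-verifying 1-limited automata

For every `m ≥ 1` there is a 1-limited automaton of size at most `15000 (m + 1)`, over an alphabet
with five letters, which is self-verifying and unambiguous (for every input exactly one computation
ends by moving past the right end-marker in a final or in a rejecting state), and all of whose
equivalent deterministic 1-limited automata have a number `q` of states with `2 ^ (m ^ 2) ≤ q * q + q`.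
So the bound `2 ^ (c n ^ 2)` for the cost of determinizing 1-limited automata needs neither two
accepting computations nor an input without a verified answer.

The machine guesses an `m × m` bit matrix in the cells of the first block of the input, compares it
with all the later blocks, and ends only if it is the matrix written in the last block.
-/

namespace Pool.Agent.Results.MP_0036f5_lc.UnambiguousToDeterministic

open Pool.Agent.H630R2.LA Pool.Agent.U593.SV Pool.Agent.U593.UA Pool.Agent.U593.UL
  Pool.Agent.Results.MP_0036f5_lc.SelfVerifying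
open Pool.Agent.TH705.LB (Ltr)

/-- The values `detSize L(M)`, for the 1-limited automata `M` of size at most `n` which, with some set
`R` of rejecting states, are self-verifying and for every input have at most one computation that ends
by moving past the right end-marker in a final or in a rejecting state; the rejecting states count for
the size as the final states do. -/
def usdCosts (strict : Prop) (n : ℕ) : Set ℕ :=
  {s | ∃ (A : Type) (_ : Finite A) (M : LimAut A) (R : Set M.Q), SelfVer strict M R ∧
    Unamb strict M (M.F ∪ R) ∧ M.size + R.ncard ≤ n ∧ s = detSize strict (M.language strict)}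

/-- The cost of determinizing self-verifying unambiguous 1-limited automata. -/
noncomputable def DU (strict : Prop) (n : ℕ) : ℕ := sSup (usdCosts strict n)

section costs

variable {strict : Prop}

theorem detSize_le {A : Type} [Finite A] (M : LimAut A) :
    detSize strict (M.language strict) ≤ 2 ^ ((M.size + 2) ^ 4) := by
  obtain ⟨M', h1, h2, h3⟩ := Pool.Agent.H630R2.LA.upper M strict
  have h4 : detSize strict (M.language strict) ≤ M'.size := Nat.sInf_le ⟨M', h1, h2, rfl⟩
  exact h4.trans h3

theorem costs_le (n : ℕ) : ∀ s ∈ costs strict n, s ≤ 2 ^ ((n + 2) ^ 4) := by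
  rintro s ⟨A, hA, M, hM, rfl⟩
  refine (detSize_le M).trans ?_
  apply Nat.pow_le_pow_right (by omega)
  exact Nat.pow_le_pow_left (by omega) 4

theorem usdCosts_subset (n : ℕ) : usdCosts strict n ⊆ costs strict n := by
  rintro s ⟨A, hA, M, R, _, _, hM, rfl⟩
  exact ⟨A, hA, M, le_trans (Nat.le_add_right _ _) hM, rfl⟩

theorem le_detSize {m : ℕ} (hm : 1 ≤ m) :
    2 ^ (m ^ 2) ≤ detSize strict ((witU m).language strict) ^ 2 := by
  obtain ⟨M', h1, h2, -⟩ := Pool.Agent.H630R2.LA.upper (witU m) strict
  have hne : {s | ∃ M : LimAut Ltr, M.Deterministic ∧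
      M.language strict = (witU m).language strict ∧ M.size = s}.Nonempty := ⟨_, M', h1, h2, rfl⟩
  obtain ⟨M, h3, h4, h5⟩ := Nat.sInf_mem hne
  have h6 : M.size = detSize strict ((witU m).language strict) := h5
  rw [← h6]
  exact lower hm M h3 h4

theorem mem_usdCosts {m n : ℕ} (hm : 1 ≤ m) (hn : 15000 * (m + 1) ≤ n) :
    detSize strict ((witU m).language strict) ∈ usdCosts strict n :=
  ⟨Ltr, inferInstance, witU m, rejU m, selfVer_witU hm, unamb_witU hm, (size_witU m).trans hn, rfl⟩

end costs

/-- **Determinizing self-verifying unambiguous 1-limited automata costs at least `2 ^ (c n ^ 2)`.** -/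
theorem result (strict : Prop) :
    (∀ m : ℕ, 1 ≤ m → ∃ (M : LimAut Ltr) (R : Set M.Q), SelfVer strict M R ∧
      Unamb strict M (M.F ∪ R) ∧ M.size + R.ncard ≤ 15000 * (m + 1) ∧
      ∀ M' : LimAut Ltr, M'.Deterministic → M'.language strict = M.language strict →
        2 ^ (m ^ 2) ≤ Nat.card M'.Q * Nat.card M'.Q + Nat.card M'.Q) ∧
    (∀ n : ℕ, 50000 ≤ n → IsGreatest (usdCosts strict n) (DU strict n) ∧
      2 ^ (2 * (n / 50000) ^ 2) ≤ DU strict n ∧ DU strict n ≤ D strict n ∧
      D strict n ≤ 2 ^ ((n + 2) ^ 4)) := by
  refine ⟨fun m hm => ⟨witU m, rejU m, selfVer_witU hm, unamb_witU hm, size_witU m,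
    fun M' h1 h2 => lowerQ hm M' h1 h2⟩, ?_⟩
  intro n hn
  have hb : BddAbove (costs strict n) := ⟨_, costs_le n⟩
  have hb' : BddAbove (usdCosts strict n) := hb.mono (usdCosts_subset n)
  obtain ⟨k, hk1, hk2, hk3⟩ : ∃ k, k = n / 50000 ∧ 1 ≤ k ∧ 50000 * k ≤ n :=
    ⟨n / 50000, rfl, by omega, by omega⟩
  have hm : 1 ≤ 2 * k := by omega
  have hmem : detSize strict ((witU (2 * k)).language strict) ∈ usdCosts strict n :=
    mem_usdCosts hm (by omega)
  have hne : (usdCosts strict n).Nonempty := ⟨_, hmem⟩
  refine ⟨⟨Nat.sSup_mem hne hb', fun s hs => le_csSup hb' hs⟩, ?_,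
    csSup_le_csSup hb hne (usdCosts_subset n), ?_⟩
  · rw [← hk1]
    refine le_trans ?_ (le_csSup hb' hmem)
    have h1 := le_detSize (strict := strict) hm
    have h2 : (2 ^ (2 * k ^ 2)) ^ 2 ≤ detSize strict ((witU (2 * k)).language strict) ^ 2 := by
      refine le_trans (le_of_eq ?_) h1
      rw [← pow_mul]
      congr 1
      ring
    exact (Nat.pow_le_pow_iff_left (by norm_num)).1 h2
  · exact csSup_le (hne.mono (usdCosts_subset n)) (costs_le n)

end Pool.Agent.Results.MP_0036f5_lc.UnambiguousToDeterministic
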